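import Pool.Agent.W254.LF.Stm3

/-!
# Strassmann's theorem for power series over the p-adic complex numbers
-/

set_option autoImplicit false
set_option linter.unusedSectionVars false

namespace Pool.Agent.W335.LF

open Polynomial NumberField Filter Topology

variable {K : Type*} [NormedField K] [CompleteSpace K] [IsUltrametricDist K]

theorem summ (f : ℕ → K) (hf : Tendsto f atTop (𝓝 0)) : Summable f :=
  NonarchimedeanAddGroup.summable_of_tendsto_cofinite_zero (by rwa [Nat.cofinite_eq_atTop])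

theorem norm_mul_pow_le (a s : K) (hs : ‖s‖ ≤ 1) (k : ℕ) : ‖a * s ^ k‖ ≤ ‖a‖ := by
  rw [norm_mul, norm_pow]
  exact mul_le_of_le_one_right (norm_nonneg _) (pow_le_one₀ (norm_nonneg _) hs)

theorem tendsto_mul_pow (f : ℕ → K) (hf : Tendsto f atTop (𝓝 0)) (s : K) (hs : ‖s‖ ≤ 1) :
    Tendsto (fun k => f k * s ^ k) atTop (𝓝 0) := by
  rw [tendsto_zero_iff_norm_tendsto_zero] at hf ⊢
  exact squeeze_zero (fun _ => norm_nonneg _) (fun k => norm_mul_pow_le _ _ hs k) hf

theorem shift_tendsto (f : ℕ → K) (hf : Tendsto f atTop (𝓝 0)) (k : ℕ) :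
    Tendsto (fun j => f (k + j)) atTop (𝓝 0) := by
  have := (tendsto_add_atTop_iff_nat (f := f) k).mpr hf
  refine this.congr fun j => by rw [add_comm]

theorem summ_shift (f : ℕ → K) (hf : Tendsto f atTop (𝓝 0)) (s : K) (hs : ‖s‖ ≤ 1) (k : ℕ) :
    Summable (fun j => f (k + j) * s ^ j) :=
  summ _ (tendsto_mul_pow _ (shift_tendsto f hf k) s hs)

/-- A uniform bound less than one for the tail. -/
theorem exists_bound (f : ℕ → K) (hf : Tendsto f atTop (𝓝 0)) (m : ℕ)
    (h : ∀ k, m < k → ‖f k‖ < 1) : ∃ C : ℝ, 0 ≤ C ∧ C < 1 ∧ ∀ k, m < k → ‖f k‖ ≤ C := by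
  have key : ∀ N : ℕ, ∃ C : ℝ, 0 ≤ C ∧ C < 1 ∧
      ∀ k, m < k → (k < N ∨ ‖f k‖ ≤ 1 / 2) → ‖f k‖ ≤ C := by
    intro N
    induction N with
    | zero => exact ⟨1 / 2, by norm_num, by norm_num, fun k _ hk => by
        rcases hk with hk | hk
        · omega
        · exact hk⟩
    | succ N ih =>
      obtain ⟨C, h0, h1, hC⟩ := ih
      by_cases hN : m < N
      · refine ⟨max C ‖f N‖, le_max_of_le_left h0, max_lt h1 (h N hN), fun k hk hk' => ?_⟩
        rcases hk' with hk' | hk'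
        · rcases Nat.lt_succ_iff_lt_or_eq.mp hk' with h2 | h2
          · exact le_max_of_le_left (hC k hk (Or.inl h2))
          · subst h2; exact le_max_right _ _
        · exact le_max_of_le_left (hC k hk (Or.inr hk'))
      · refine ⟨C, h0, h1, fun k hk hk' => ?_⟩
        rcases hk' with hk' | hk'
        · exact hC k hk (Or.inl (by omega))
        · exact hC k hk (Or.inr hk')
  have h2 : ∀ᶠ k in atTop, ‖f k‖ < 1 / 2 := by
    have h3 := tendsto_zero_iff_norm_tendsto_zero.mp hf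
    exact h3.eventually (gt_mem_nhds (by norm_num))
  obtain ⟨N, hN⟩ := eventually_atTop.mp h2
  obtain ⟨C, h0, h1, hC⟩ := key N
  refine ⟨C, h0, h1, fun k hk => hC k hk ?_⟩
  by_cases hkN : k < N
  · exact Or.inl hkN
  · exact Or.inr (hN k (by omega)).le

theorem tsum_norm_le (f : ℕ → K) (s : K) (hs : ‖s‖ ≤ 1) (C : ℝ) (hC : 0 ≤ C) (k : ℕ)
    (h : ∀ j, k ≤ j → ‖f j‖ ≤ C) : ‖∑' j, f (k + j) * s ^ j‖ ≤ C :=
  IsUltrametricDist.norm_tsum_le_of_forall_le_of_nonneg hC fun j =>
    (norm_mul_pow_le _ _ hs j).trans (h _ (Nat.le_add_right _ _))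

theorem tsum_rec (f : ℕ → K) (hf : Tendsto f atTop (𝓝 0)) (s : K) (hs : ‖s‖ ≤ 1) (k : ℕ) :
    ∑' j, f (k + j) * s ^ j = f k + s * ∑' j, f (k + 1 + j) * s ^ j := by
  rw [(summ_shift f hf s hs k).tsum_eq_zero_add, ← tsum_mul_left]
  congr 1
  · simp
  · refine tsum_congr fun j => ?_
    rw [show k + (j + 1) = k + 1 + j by ring]
    ring

theorem norm_add_eq_of_lt {a b : K} (h : ‖b‖ < ‖a‖) : ‖a + b‖ = ‖a‖ := by
  have := IsUltrametricDist.norm_add_eq_max_of_norm_ne_norm (x := a) (y := b) (ne_of_gt h)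
  rw [this, max_eq_left h.le]

theorem strassmann (m : ℕ) : ∀ (f : ℕ → K), Tendsto f atTop (𝓝 0) →
    (∀ k, ‖f k‖ ≤ 1) → ‖f m‖ = 1 → (∀ k, m < k → ‖f k‖ < 1) →
    ∀ S : Finset K, (∀ s ∈ S, ‖s‖ ≤ 1 ∧ ∑' k, f k * s ^ k = 0) → S.card ≤ m := by
  classical
  induction m with
  | zero =>
    intro f hf h1 hm hlt S hS
    rw [Nat.le_zero, Finset.card_eq_zero, Finset.eq_empty_iff_forall_notMem]
    intro s hs
    obtain ⟨hs1, hs0⟩ := hS s hs
    obtain ⟨C, hC0, hC1, hC⟩ := exists_bound f hf 0 hlt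
    have h2 := tsum_rec f hf s hs1 0
    simp only [zero_add] at h2
    rw [hs0] at h2
    have h3 := tsum_norm_le f s hs1 C hC0 1 (fun j hj => hC j (by omega))
    have h4 : f 0 = -(s * ∑' j, f (1 + j) * s ^ j) := eq_neg_of_add_eq_zero_left h2.symm
    have h5 : ‖f 0‖ ≤ C := by
      rw [h4, norm_neg, norm_mul]
      calc ‖s‖ * ‖∑' j, f (1 + j) * s ^ j‖ ≤ 1 * C :=
            mul_le_mul hs1 h3 (norm_nonneg _) zero_le_one
        _ = C := one_mul C
    linarith
  | succ m ih =>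
    intro f hf h1 hm hlt S hS
    rcases S.eq_empty_or_nonempty with rfl | ⟨s₀, hs₀⟩
    · simp
    obtain ⟨hs1, hs0⟩ := hS s₀ hs₀
    obtain ⟨C, hC0, hC1, hC⟩ := exists_bound f hf (m + 1) hlt
    set g : ℕ → K := fun k => ∑' j, f (k + 1 + j) * s₀ ^ j with hg
    have hrec : ∀ k, g k = f (k + 1) + s₀ * g (k + 1) := fun k => tsum_rec f hf s₀ hs1 (k + 1)
    have hrec0 : f 0 + s₀ * g 0 = 0 := by
      have h2 := tsum_rec f hf s₀ hs1 0
      simp only [zero_add] at h2
      rw [hs0] at h2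
      simp only [hg, zero_add]
      exact h2.symm
    have hg1 : ∀ k, ‖g k‖ ≤ 1 := fun k =>
      tsum_norm_le f s₀ hs1 1 zero_le_one (k + 1) (fun j _ => h1 j)
    have hgC : ∀ k, m < k → ‖g k‖ < 1 := fun k hk =>
      (tsum_norm_le f s₀ hs1 C hC0 (k + 1) (fun j hj => hC j (by omega))).trans_lt hC1
    have hgm : ‖g m‖ = 1 := by
      rw [hrec m, norm_add_eq_of_lt, hm]
      rw [hm, norm_mul]
      calc ‖s₀‖ * ‖g (m + 1)‖ ≤ 1 * ‖g (m + 1)‖ :=
            mul_le_mul_of_nonneg_right hs1 (norm_nonneg _)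
        _ = ‖g (m + 1)‖ := one_mul _
        _ < 1 := hgC (m + 1) (by omega)
    have hgt : Tendsto g atTop (𝓝 0) := by
      rw [Metric.tendsto_atTop]
      intro ε hε
      obtain ⟨N, hN⟩ := Metric.tendsto_atTop.mp hf (ε / 2) (by positivity)
      refine ⟨N, fun n hn => ?_⟩
      rw [dist_zero_right]
      refine (tsum_norm_le f s₀ hs1 (ε / 2) (by positivity) (n + 1) fun j hj => ?_).trans_lt
        (by linarith)
      have := hN j (by omega)
      rw [dist_zero_right] at this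
      exact this.le
    have hfact : ∀ s : K, ‖s‖ ≤ 1 →
        ∑' k, f k * s ^ k = (s - s₀) * ∑' k, g k * s ^ k := by
      intro s hs
      have e1 := tsum_rec f hf s hs 0
      simp only [zero_add] at e1
      have e2 := tsum_rec g hgt s hs 0
      simp only [zero_add] at e2
      have s1 : Summable (fun j => f (1 + j) * s ^ j) := summ_shift f hf s hs 1
      have s2 : Summable (fun j => g j * s ^ j) := by
        simpa using summ_shift g hgt s hs 0
      have s3 : Summable (fun j => g (1 + j) * s ^ j) := summ_shift g hgt s hs 1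
      have e3 : ∑' j, f (1 + j) * s ^ j =
          ∑' j, g j * s ^ j - s₀ * ∑' j, g (1 + j) * s ^ j := by
        rw [← tsum_mul_left, ← s2.tsum_sub (s3.mul_left s₀)]
        refine tsum_congr fun j => ?_
        have := hrec j
        rw [show f (1 + j) = g j - s₀ * g (1 + j) by rw [this, add_comm 1 j]; ring]
        ring
      rw [e1, e3]
      linear_combination hrec0 + s₀ * e2
    have hcard := ih g hgt hg1 hgm hgC (S.erase s₀) (by
      intro s hs
      obtain ⟨hne, hsS⟩ := Finset.mem_erase.mp hs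
      obtain ⟨hs1', hs0'⟩ := hS s hsS
      refine ⟨hs1', ?_⟩
      have := hfact s hs1'
      rw [hs0'] at this
      rcases mul_eq_zero.mp this.symm with h | h
      · exact absurd (sub_eq_zero.mp h) hne
      · exact h)
    rw [Finset.card_erase_of_mem hs₀] at hcard
    omega

/-- **Strassmann's theorem** over the completed algebraic closure. -/
theorem t_STR : Pool.Agent.W254.LF.S_STR := by
  intro p _ f m hf h1 hm hlt S hS
  exact strassmann m f hf h1 hm hlt S hS

end Pool.Agent.W335.LF
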